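import Pool.Agent.helper47.SC.Spec

/-! # sc:YYO, the set `Y` is open -/

set_option autoImplicit false

open scoped Topology ContDiff
open Set Filter Metric MeasureTheory

namespace Pool.Agent.SC

theorem YYO (h1 : GGB_stmt) (h2 : NSQ_stmt) (h3 : QAN_stmt) : YYO_stmt := by
  intro s m hm hs
  have hu : ∀ i, ‖(s i).1‖ ≤ 1 / 4 := by
    intro i
    have h4 := h2.2.2.2.2.2.2.2.1 (s i)
    have h5 := hs i
    have h6 : 0 ≤ ‖(s i).1‖ := norm_nonneg _
    nlinarith
  obtain ⟨_, _, _, _, _, _, _, hX⟩ := h1 s m hm hu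
  have hQ := (h3 s m hm hs).2.1
  have hc : Continuous nsq := h2.2.1
  have hA : IsOpen {q : C4 | (q.1, q.2.1) ∈ XX s m} := by
    apply hX.preimage (f := fun q : C4 => ((q.1, q.2.1) : C2))
    fun_prop
  have hB : IsOpen {q : C4 | nsq q.2 < 1 / 4} := by
    apply isOpen_lt _ continuous_const
    exact hc.comp continuous_snd
  have hC : IsOpen {q : C4 | ∃ k, QQ s m k q < Real.exp 3} := by
    have : {q : C4 | ∃ k, QQ s m k q < Real.exp 3} = ⋃ k, {q : C4 | QQ s m k q < Real.exp 3} := by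
      ext q
      simp
    rw [this]
    exact isOpen_iUnion fun k => isOpen_lt (hQ k) continuous_const
  have : YY s m = {q : C4 | (q.1, q.2.1) ∈ XX s m} ∩
      ({q : C4 | nsq q.2 < 1 / 4} ∩ {q : C4 | ∃ k, QQ s m k q < Real.exp 3}) := by
    ext q
    rfl
  rw [this]
  exact hA.inter (hB.inter hC)

end Pool.Agent.SC
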